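import Mathlib
import Pool.Agent.Helper827_ando.Main

set_option autoImplicit false

/-- Let `G` be a finite cubic graph with a 2-factor `F` such that every connected component of `G`
contains at most two odd circuits of `F` of length at least 5 (triangles and even circuits are
allowed in any number).  Then `G` has a bisection into isomorphic linear forests; moreover all
components of the two parts have at most four vertices. -/
theorem Pool.Agent.Results.MP_b1c9a2_co.TwoLongOddCircuits.result :
    ∀ (V : Type) [Fintype V] [DecidableEq V] (G F : SimpleGraph V) [DecidableRel G.Adj]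
      [DecidableRel F.Adj],
    G.IsRegularOfDegree 3 → F ≤ G → F.IsRegularOfDegree 2 →
    (∀ D : G.ConnectedComponent,
      {C : F.ConnectedComponent |
        C.supp ⊆ D.supp ∧ Odd C.supp.ncard ∧ 5 ≤ C.supp.ncard}.ncard ≤ 2) →
    ∃ S : Finset V,
      S.card = Sᶜ.card ∧
      Nonempty (G.induce (S : Set V) ≃g G.induce ((Sᶜ : Finset V) : Set V)) ∧
      (G.induce (S : Set V)).IsAcyclic ∧
      (G.induce ((Sᶜ : Finset V) : Set V)).IsAcyclic ∧
      (∀ v ∈ S, (S.filter (fun w => G.Adj v w)).card ≤ 2) ∧
      (∀ v ∈ Sᶜ, (Sᶜ.filter (fun w => G.Adj v w)).card ≤ 2) ∧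
      (∀ C : (G.induce (S : Set V)).ConnectedComponent, C.supp.ncard ≤ 4) ∧
      (∀ C : (G.induce ((Sᶜ : Finset V) : Set V)).ConnectedComponent, C.supp.ncard ≤ 4) := by
  intro V _ _ G F _ _ hG hFG hF hodd
  exact Pool.Agent.Helper827_ando.main_two_odd G F hG hFG hF hodd
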